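import Mathlib
import Pool.Agent.H925R3.DD.Stubs

/-! Project DD, task HPD (helper380). -/

set_option autoImplicit false

namespace Pool.Agent.H380R4.DD

open Finset Pool.Agent.H925R3.DC Pool.Agent.H925R3.DD

theorem HPD_nons {K : Type} [Field K] {a b x y : K} (h2 : (2 : K) ≠ 0)
    (hd : 4 * a ^ 3 + 27 * b ^ 2 ≠ 0) (h : y ^ 2 = x ^ 3 + a * x + b) :
    (crv K a b).Nonsingular x y := by
  rw [WeierstrassCurve.Affine.nonsingular_iff, WeierstrassCurve.Affine.equation_iff]
  simp only [crv]
  constructor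
  · linear_combination h
  · by_contra hcon
    push Not at hcon
    obtain ⟨h3, h4⟩ := hcon
    have hy : y = 0 := by
      have h5 : 2 * y = 0 := by linear_combination h4
      rcases mul_eq_zero.1 h5 with h6 | h6
      · exact absurd h6 h2
      · exact h6
    apply hd
    have ha : a = -3 * x ^ 2 := by linear_combination -h3
    have hb : b = 2 * x ^ 3 := by
      rw [hy, ha] at h
      linear_combination -h
    rw [ha, hb]
    ring

theorem HPD_monoW {R : Type} [CommRing R] {n : ℕ} (s : MonW n) (l X Y Z : R) :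
    monoW s (l ^ 2 * X) (l ^ 3 * Y) (l * Z) = l ^ n * monoW s X Y Z := by
  obtain ⟨⟨i, j⟩, hs⟩ := s
  have h : 2 * i + 3 * j ≤ n := (Finset.mem_filter.1 hs).2
  unfold monoW
  simp only
  rw [mul_pow, mul_pow, mul_pow, ← pow_mul, ← pow_mul]
  have e : l ^ n = l ^ (2 * i) * l ^ (3 * j) * l ^ (n - 2 * i - 3 * j) := by
    rw [← pow_add, ← pow_add]
    congr 1
    omega
  rw [e]
  ring

theorem HPD_sec {R : Type} [CommRing R] {r m d : ℕ} (c : Idx r m d → ℤ) (i : Fin d)
    (l X Y Z : Fin r → R) :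
    sec c i (fun j => l j ^ 2 * X j) (fun j => l j ^ 3 * Y j) (fun j => l j * Z j) =
      (∏ j, l j ^ m) ^ (i.1 + 1) * sec c i X Y Z := by
  unfold sec
  rw [Finset.mul_sum]
  apply Finset.sum_congr rfl
  intro s _
  have e : ∏ j, monoW (s j) (l j ^ 2 * X j) (l j ^ 3 * Y j) (l j * Z j) =
      (∏ j, l j ^ m) ^ (i.1 + 1) * ∏ j, monoW (s j) (X j) (Y j) (Z j) := by
    rw [← Finset.prod_pow, ← Finset.prod_mul_distrib]
    apply Finset.prod_congr rfl
    intro j _
    rw [HPD_monoW, ← pow_mul]
    congr 2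
    ring
  rw [e]
  ring

theorem HPD_map {R R' : Type} [CommRing R] [CommRing R'] (f : R →+* R') {r m d : ℕ}
    (c : Idx r m d → ℤ) (i : Fin d) (X Y Z : Fin r → R) :
    f (sec c i X Y Z) = sec c i (fun j => f (X j)) (fun j => f (Y j)) (fun j => f (Z j)) := by
  unfold sec monoW
  rw [map_sum]
  apply Finset.sum_congr rfl
  intro s _
  rw [map_mul, map_intCast, map_prod]
  congr 1
  apply Finset.prod_congr rfl
  intro j _
  rw [map_mul, map_mul, map_pow, map_pow, map_pow]

theorem hpd (hL : LOC1) : HPD := by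
  intro K _ r m d a b c hd h2 hab hpt
  obtain ⟨X, Y, Z, w, hXYZ, hw⟩ := hpt
  have hP : ∀ i : Fin r, ∃ P : (crv K (a i : K) (b i : K)).Point,
      ((Z i = 0 ∧ P = .zero) ∨ (Z i ≠ 0 ∧ ∃ h, P = .some (X i / Z i ^ 2) (Y i / Z i ^ 3) h)) := by
    intro i
    by_cases hz : Z i = 0
    · exact ⟨.zero, Or.inl ⟨hz, rfl⟩⟩
    · have hab' : (4 * (a i : K) ^ 3 + 27 * (b i : K) ^ 2) ≠ 0 := by
        have := hab i
        push_cast at this
        exact this
      have hn : (crv K (a i : K) (b i : K)).Nonsingular (X i / Z i ^ 2) (Y i / Z i ^ 3) := by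
        apply HPD_nons h2 hab'
        have h := (hXYZ i).1
        field_simp
        linear_combination h
      exact ⟨.some _ _ hn, Or.inr ⟨hz, hn, rfl⟩⟩
  choose P hP using hP
  refine ⟨P, ?_⟩
  intro k _ O φ hV red hred
  have hloc := fun i => hL K k O φ hV (a i) (b i) (red i) (hred i) (X i) (Y i) (Z i) (hXYZ i).1
    (hXYZ i).2 (P i) (hP i)
  choose l X' Y' Z' hl hX hY hZ hstd using hloc
  have hL0 : (∏ j, l j ^ m) ≠ 0 := Finset.prod_ne_zero_iff.2 fun j _ => pow_ne_zero _ (hl j)
  set L : K := ∏ j, l j ^ m with hLdef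
  -- the sections in `O`
  set S : Fin d → O := fun i => sec c i X' Y' Z' with hS
  have hSK : ∀ i, sec c i X Y Z = L ^ (i.1 + 1) * (S i : K) := by
    intro i
    have e1 : (fun j => l j ^ 2 * ((X' j : O) : K)) = X := funext fun j => (hX j).symm
    have e2 : (fun j => l j ^ 3 * ((Y' j : O) : K)) = Y := funext fun j => (hY j).symm
    have e3 : (fun j => l j * ((Z' j : O) : K)) = Z := funext fun j => (hZ j).symm
    have e4 := HPD_sec c i l (fun j => ((X' j : O) : K)) (fun j => ((Y' j : O) : K))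
      (fun j => ((Z' j : O) : K))
    rw [e1, e2, e3] at e4
    rw [e4, hS]
    congr 1
    exact (HPD_map O.subtype c i X' Y' Z').symm
  obtain ⟨w', hw'⟩ : ∃ w' : K, w = L * w' := ⟨w / L, by field_simp⟩
  have heq : w' ^ d + ∑ i : Fin d, (S i : K) * w' ^ (d - 1 - i.1) = 0 := by
    have e1 : w ^ d + ∑ i : Fin d, sec c i X Y Z * w ^ (d - 1 - i.1) =
        L ^ d * (w' ^ d + ∑ i : Fin d, (S i : K) * w' ^ (d - 1 - i.1)) := by
      rw [mul_add, Finset.mul_sum, hw', mul_pow]
      congr 1
      apply Finset.sum_congr rfl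
      intro i _
      rw [hSK i, mul_pow]
      have e2 : L ^ d = L ^ (i.1 + 1) * L ^ (d - 1 - i.1) := by
        rw [← pow_add]
        congr 1
        have := i.2
        omega
      rw [e2]
      ring
    rw [e1] at hw
    rcases mul_eq_zero.1 hw with h | h
    · exact absurd h (pow_ne_zero _ hL0)
    · exact h
  -- `w'` is integral
  have hwO : w' ∈ O := by
    rcases hV.1 w' with h | h
    · exact h
    · by_contra hn
      have hw0 : w' ≠ 0 := fun h0 => hn (h0 ▸ O.zero_mem)
      have hφ : φ ⟨w'⁻¹, h⟩ = 0 := by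
        by_contra hc
        have := hV.2 ⟨w'⁻¹, h⟩ hc
        simp only [inv_inv] at this
        exact hn this
      have e1 : (1 : K) + ∑ i : Fin d, (S i : K) * (w'⁻¹) ^ (i.1 + 1) = 0 := by
        have e2 : w' ^ d * (1 + ∑ i : Fin d, (S i : K) * (w'⁻¹) ^ (i.1 + 1)) = 0 := by
          rw [← heq, mul_add, Finset.mul_sum, mul_one]
          congr 1
          apply Finset.sum_congr rfl
          intro i _
          have e3 : w' ^ d = w' ^ (d - 1 - i.1) * w' ^ (i.1 + 1) := by
            rw [← pow_add]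
            congr 1
            have := i.2
            omega
          rw [e3, inv_pow]
          have := pow_ne_zero (i.1 + 1) hw0
          field_simp
        rcases mul_eq_zero.1 e2 with h4 | h4
        · exact absurd h4 (pow_ne_zero _ hw0)
        · exact h4
      have e4 : (1 : O) + ∑ i : Fin d, S i * (⟨w'⁻¹, h⟩ : O) ^ (i.1 + 1) = 0 := by
        apply Subtype.ext
        push_cast
        exact e1
      have e5 := congrArg φ e4
      rw [map_add, map_one, map_sum, map_zero] at e5
      have e6 : ∑ i : Fin d, φ (S i * (⟨w'⁻¹, h⟩ : O) ^ (i.1 + 1)) = 0 := by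
        apply Finset.sum_eq_zero
        intro i _
        rw [map_mul, map_pow, hφ, zero_pow (by omega), mul_zero]
      rw [e6, add_zero] at e5
      exact one_ne_zero e5
  have e4 : (⟨w', hwO⟩ : O) ^ d + ∑ i : Fin d, S i * (⟨w', hwO⟩ : O) ^ (d - 1 - i.1) = 0 := by
    apply Subtype.ext
    push_cast
    exact heq
  refine ⟨φ ⟨w', hwO⟩, ?_⟩
  have e5 := congrArg φ e4
  rw [map_add, map_pow, map_sum, map_zero] at e5
  rw [← e5]
  congr 1
  apply Finset.sum_congr rfl
  intro i _
  rw [map_mul, map_pow, hS]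
  congr 1
  simp only
  rw [HPD_map]
  have f1 : (fun j => (std (red j (P j))).1) = fun j => φ (X' j) :=
    funext fun j => (congrArg Prod.fst (hstd j)).symm
  have f2 : (fun j => (std (red j (P j))).2.1) = fun j => φ (Y' j) :=
    funext fun j => (congrArg (fun z => z.2.1) (hstd j)).symm
  have f3 : (fun j => (std (red j (P j))).2.2) = fun j => φ (Z' j) :=
    funext fun j => (congrArg (fun z => z.2.2) (hstd j)).symm
  rw [f1, f2, f3]

end Pool.Agent.H380R4.DD
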